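import Mathlib

/-!
# Certificates, spread items: the counting part of the triple exponential lower bound
-/

set_option autoImplicit false

namespace Pool.Agent.Lib.MP_994fee_co.Tri

open Finset

/-- The colour `y` is demanded inside the item `p` by the assignment `θ`. -/
def Dem {q : ℕ} {K α : Type} (θ : Fin q → K × Set α) (p : K × Set (α × Fin q)) (y : Fin q) :
    Prop :=
  (θ y).1 = p.1 ∧ ∀ x ∈ (θ y).2, (x, y) ∈ p.2

/-- The demands of `θ` inside `p` have distinct representatives. -/
def Good {q : ℕ} {K α : Type} (θ : Fin q → K × Set α) (p : K × Set (α × Fin q)) : Prop :=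
  ∃ r : Fin q → α, (∀ y, Dem θ p y → r y ∈ (θ y).2) ∧
    (∀ y y', Dem θ p y → Dem θ p y' → r y = r y' → y = y')

/-- `V` is a certificate for `W`. -/
def Cert {q : ℕ} {K α : Type} (W : Set (K × Set α)) (V : Set (K × Set (α × Fin q))) : Prop :=
  ∀ θ : Fin q → K × Set α, (∀ y, θ y ∈ W) → ∃ p ∈ V, ¬ Good θ p

/-- realisable families of items, `n` levels above the bottom -/
def Rz (q M : ℕ) (K : Type) : ℕ → (α : Type) → Set (K × Set α) → Prop
  | 0, _, V => ∀ p ∈ V, p.2.ncard < M
  | n + 1, α, W => ∀ W' ⊆ W, ∃ V : Set (K × Set (α × Fin q)), Rz q M K n (α × Fin q) V ∧ Cert W' V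

lemma Rz_mono {q M : ℕ} {K : Type} {n : ℕ} {α : Type} {W W' : Set (K × Set α)} (h : W' ⊆ W)
    (hW : Rz q M K n α W) : Rz q M K n α W' := by
  cases n with
  | zero => exact fun p hp => hW p (h hp)
  | succ n => exact fun W'' hW'' => hW W'' (hW''.trans h)

/-- If the demands have no distinct representatives, Hall's condition fails. -/
lemma hall {q : ℕ} {K α : Type} [Finite α] [Nonempty α] {θ : Fin q → K × Set α}
    {p : K × Set (α × Fin q)} (h : ¬ Good θ p) :
    ∃ Y : Finset (Fin q), (∀ y ∈ Y, Dem θ p y) ∧ (⋃ y ∈ Y, (θ y).2).ncard < Y.card := by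
  classical
  have := Fintype.ofFinite α
  by_contra hcon
  push Not at hcon
  apply h
  let ι := {y : Fin q // Dem θ p y}
  let t : ι → Finset α := fun y => (θ y.1).2.toFinset
  have hall : ∀ s : Finset ι, s.card ≤ (s.biUnion t).card := by
    intro s
    have h1 := hcon (s.image Subtype.val) (by
      intro y hy
      obtain ⟨z, _, rfl⟩ := Finset.mem_image.mp hy
      exact z.2)
    rw [Finset.card_image_of_injective _ Subtype.val_injective] at h1
    refine h1.trans ?_
    rw [← Set.ncard_coe_finset]
    apply Set.ncard_le_ncard _ (Set.toFinite _)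
    intro x hx
    simp only [Set.mem_iUnion, Finset.mem_image, Finset.coe_biUnion, Finset.mem_coe] at hx ⊢
    obtain ⟨y, ⟨z, hz, rfl⟩, hx⟩ := hx
    exact ⟨z, hz, by simpa [t] using hx⟩
  obtain ⟨f, hf1, hf2⟩ := (Finset.all_card_le_biUnion_card_iff_exists_injective t).mp hall
  refine ⟨fun y => if hy : Dem θ p y then f ⟨y, hy⟩ else Classical.arbitrary α, ?_, ?_⟩
  · intro y hy
    simp only [hy, dif_pos]
    have := hf2 ⟨y, hy⟩
    simpa [t] using this
  · intro y y' hy hy' he
    simp only [hy, hy', dif_pos] at he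
    exact congrArg Subtype.val (hf1 he)

/-- share of the elements with property `P` -/
noncomputable def dens {Θ : Type} [Fintype Θ] (P : Θ → Prop) : ℝ := by
  classical exact ((Finset.univ.filter P).card : ℝ) / Fintype.card Θ

section Dens

variable {Θ : Type} [Fintype Θ]

lemma dens_def (P : Θ → Prop) [DecidablePred P] :
    dens P = ((Finset.univ.filter P).card : ℝ) / Fintype.card Θ := by
  unfold dens
  congr!

lemma dens_nonneg (P : Θ → Prop) : 0 ≤ dens P := by
  unfold dens; positivity

lemma dens_mono {P Q : Θ → Prop} (h : ∀ t, P t → Q t) : dens P ≤ dens Q := by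
  classical
  unfold dens
  apply div_le_div_of_nonneg_right _ (Nat.cast_nonneg _)
  exact_mod_cast Finset.card_le_card (Finset.monotone_filter_right _ (fun t _ ht => h t ht))

lemma dens_univ [Nonempty Θ] {P : Θ → Prop} (h : ∀ t, P t) : dens P = 1 := by
  classical
  unfold dens
  rw [Finset.filter_true_of_mem (fun t _ => h t), Finset.card_univ]
  have : (Fintype.card Θ : ℝ) ≠ 0 := by exact_mod_cast Fintype.card_ne_zero
  field_simp

lemma dens_exists_le {ι : Type} [Fintype ι] (E : ι → Θ → Prop) :
    dens (fun t => ∃ i, E i t) ≤ ∑ i, dens (E i) := by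
  classical
  simp only [dens_def]
  rw [← Finset.sum_div]
  apply div_le_div_of_nonneg_right _ (Nat.cast_nonneg _)
  have : Finset.univ.filter (fun t => ∃ i, E i t) ⊆
      Finset.univ.biUnion (fun i => Finset.univ.filter (E i)) := by
    intro t ht
    simp only [Finset.mem_filter, Finset.mem_univ, true_and, Finset.mem_biUnion] at ht ⊢
    exact ht
  exact_mod_cast (Finset.card_le_card this).trans Finset.card_biUnion_le

lemma dens_pi [Nonempty Θ] {q m : ℕ} (e : Fin m → Fin q) (he : Function.Injective e)
    (P : Fin m → Θ → Prop) :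
    dens (fun θ : Fin q → Θ => ∀ i, P i (θ (e i))) = ∏ i, dens (P i) := by
  classical
  let Q : Fin q → Θ → Prop := fun y t => ∀ i, e i = y → P i t
  have h1 : (Finset.univ.filter (fun θ : Fin q → Θ => ∀ i, P i (θ (e i)))) =
      Fintype.piFinset (fun y => Finset.univ.filter (Q y)) := by
    ext θ
    simp only [Finset.mem_filter, Finset.mem_univ, true_and, Fintype.mem_piFinset, Q]
    constructor
    · intro h y i hi
      rw [← hi]
      exact h i
    · intro h i
      exact h (e i) i rfl
  have h2 : dens (fun θ : Fin q → Θ => ∀ i, P i (θ (e i))) = ∏ y, dens (Q y) := by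
    simp only [dens_def]
    rw [h1, Fintype.card_piFinset, Fintype.card_pi]
    push_cast
    rw [Finset.prod_div_distrib]
  rw [h2]
  have h3 : ∏ y, dens (Q y) = ∏ y ∈ Finset.univ.image e, dens (Q y) := by
    symm
    apply Finset.prod_subset (Finset.subset_univ _)
    intro y _ hy
    apply dens_univ
    intro t i hi
    exact absurd (Finset.mem_image.mpr ⟨i, Finset.mem_univ _, hi⟩) hy
  rw [h3, Finset.prod_image (fun i _ j _ h => he h)]
  apply Finset.prod_congr rfl
  intro i _
  have : Q (e i) = P i := by
    funext t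
    apply propext
    constructor
    · intro h
      exact h i rfl
    · intro h j hj
      rwa [he hj]
  rw [this]

end Dens

lemma sum_pow_le {ι : Type} (s : Finset ι) (f : ι → ℝ) (hf : ∀ i, 0 ≤ f i) {n : ℕ} (hn : n ≠ 0) :
    ∑ i ∈ s, f i ^ n ≤ (∑ i ∈ s, f i) ^ n := by
  classical
  induction s using Finset.induction_on with
  | empty => simp [hn]
  | insert a s ha ih =>
    rw [Finset.sum_insert ha, Finset.sum_insert ha]
    have h1 := pow_add_pow_le (hf a) (Finset.sum_nonneg (fun i (_ : i ∈ s) => hf i)) hn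
    linarith

end Pool.Agent.Lib.MP_994fee_co.Tri
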