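import Pool.Agent.Lib.MP_994fee_co.Tri.Comb

/-!
# Gadgets: graphs with strategies that hang on a set of outer vertices and on a path
-/

set_option autoImplicit false

namespace Pool.Agent.Lib.MP_994fee_co.Tri

open Classical in
/-- A gadget: a finite graph (given by the sets `B v` of earlier neighbours), hanging on `k` outer
vertices with colours in `K` (seen by the vertices with `sK`) and on a path of `j` vertices with
colours in `X` (seen by the vertices with `sX`), together with a strategy `g`. -/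
structure Gad (q : ℕ) (K X : Type) (k j N : ℕ) where
  V : Type
  fin : Finite V
  sK : V → Prop
  sX : V → Prop
  sKX : ∀ v, sK v → sX v
  B : V → Set V
  rk : V → ℕ
  rk_lt : ∀ v, ∀ u ∈ B v, rk u < rk v
  deg : ∀ v, (B v).ncard + (if sK v then k else 0) + (if sX v then j else 0) ≤ N
  closK : ∀ v, sK v → ∀ u ∈ B v, sK u
  closX : ∀ v, sX v → ∀ u ∈ B v, sX u
  clique : ∀ v, ∀ u ∈ B v, ∀ u' ∈ B v, u ≠ u' → u ∈ B u' ∨ u' ∈ B u
  g : V → K → X → (V → Fin q) → Fin q
  loc : ∀ v κ κ' x x' c c', (sK v → κ = κ') → (sX v → x = x') →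
    (∀ u, u ∈ B v ∨ v ∈ B u → c u = c' u) → g v κ x c = g v κ' x' c'

namespace Gad

variable {q : ℕ} {K X : Type} {k j N : ℕ}

/-- colours of the path for which all vertices of the gadget can be wrong -/
def alive (G : Gad q K X k j N) (κ : K) (ζ : G.V → Fin q) : Set X :=
  {x | ∃ c : G.V → Fin q, (∀ v, G.sX v → c v = ζ v) ∧ ∀ v, G.g v κ x c ≠ c v}

/-- realisable items -/
def real (G : Gad q K X k j N) (z : G.V → Fin q) : Set (K × Set X) :=
  {p | ∃ ζ : G.V → Fin q, (∀ v, G.sK v → ζ v = z v) ∧ p.2 = G.alive p.1 ζ}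

lemma alive_congr (G : Gad q K X k j N) (κ : K) {ζ ζ' : G.V → Fin q}
    (h : ∀ v, G.sX v → ζ v = ζ' v) : G.alive κ ζ = G.alive κ ζ' := by
  unfold alive
  ext x
  constructor
  · rintro ⟨c, h1, h2⟩
    exact ⟨c, fun v hv => (h1 v hv).trans (h v hv), h2⟩
  · rintro ⟨c, h1, h2⟩
    exact ⟨c, fun v hv => (h1 v hv).trans (h v hv).symm, h2⟩

lemma real_congr (G : Gad q K X k j N) {z z' : G.V → Fin q}
    (h : ∀ v, G.sK v → z v = z' v) : G.real z = G.real z' := by
  unfold real
  ext p
  constructor
  · rintro ⟨c, h1, h2⟩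
    exact ⟨c, fun v hv => (h1 v hv).trans (h v hv), h2⟩
  · rintro ⟨c, h1, h2⟩
    exact ⟨c, fun v hv => (h1 v hv).trans (h v hv).symm, h2⟩

open Classical in
/-- The guess of the vertex labelled `W`, when it sees the item family `V`, the item `p` and the
colours `x` of the path above it. -/
noncomputable def guess [NeZero q] (W : Set (K × Set X)) (V : Set (K × Set (X × Fin q)))
    (p : K × Set (X × Fin q)) (x : X) : Fin q :=
  if h : ∃ θ : Fin q → K × Set X, (∀ y, θ y ∈ W) ∧ ∀ p ∈ V, Good θ p then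
    if h2 : Good h.choose p then
      if h3 : ∃ y, Dem h.choose p y ∧ h2.choose y = x then h3.choose else 0
    else 0
  else 0

/-- If `V` is not a certificate for `W`, the guess function kills. -/
lemma guess_kills [NeZero q] {W : Set (K × Set X)} {V : Set (K × Set (X × Fin q))}
    (hC : ¬ Cert W V) (y : Fin q) :
    ∃ p0 ∈ W, ∀ A : Set (X × Fin q), (p0.1, A) ∈ V → (∀ x ∈ p0.2, (x, y) ∈ A) →
      ∃ x ∈ p0.2, guess W V (p0.1, A) x = y := by
  have h : ∃ θ : Fin q → K × Set X, (∀ y, θ y ∈ W) ∧ ∀ p ∈ V, Good θ p := by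
    unfold Cert at hC
    push Not at hC
    exact hC
  refine ⟨h.choose y, h.choose_spec.1 y, fun A hA hsub => ?_⟩
  have h2 : Good h.choose ((h.choose y).1, A) := h.choose_spec.2 _ hA
  have hd : Dem h.choose ((h.choose y).1, A) y := ⟨rfl, hsub⟩
  refine ⟨h2.choose y, h2.choose_spec.1 y hd, ?_⟩
  have h3 : ∃ y', Dem h.choose ((h.choose y).1, A) y' ∧ h2.choose y' = h2.choose y := ⟨y, hd, rfl⟩
  unfold guess
  rw [dif_pos h, dif_pos h2, dif_pos h3]
  exact h2.choose_spec.2 _ _ h3.choose_spec.1 hd h3.choose_spec.2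

/-! ### One level up -/

section Up

variable [NeZero q] (G : Gad q K (X × Fin q) k (j + 1) N)

/-- earlier neighbours in the new gadget -/
def upB : Set (K × Set X) × Option G.V → Set (Set (K × Set X) × Option G.V)
  | (_, none) => ∅
  | (W, some v) => {p | p.1 = W ∧ ((p.2 = none ∧ G.sX v) ∨ ∃ u ∈ G.B v, p.2 = some u)}

omit [NeZero q] in
lemma upB_ncard (W : Set (K × Set X)) (v : G.V) [Decidable (G.sX v)] :
    (G.upB (W, some v)).ncard ≤ (G.B v).ncard + (if G.sX v then 1 else 0) := by
  classical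
  have := G.fin
  have hsub : G.upB (W, some v) ⊆ ((fun u => (W, some u)) '' G.B v) ∪
      (if G.sX v then {(W, none)} else ∅) := by
    rintro ⟨W', o⟩ ⟨h1, h2⟩
    simp only at h1 h2
    subst h1
    rcases h2 with ⟨rfl, hs⟩ | ⟨u, hu, rfl⟩
    · right
      rw [if_pos hs]
      rfl
    · left
      exact ⟨u, hu, rfl⟩
  refine (Set.ncard_le_ncard hsub ?_).trans ((Set.ncard_union_le _ _).trans ?_)
  · apply Set.Finite.union
    · exact (Set.toFinite _).image _
    · split_ifs
      · exact Set.finite_singleton _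
      · exact Set.finite_empty
  · apply Nat.add_le_add
    · exact Set.ncard_image_le (Set.toFinite _)
    · split_ifs
      · simp
      · simp

open Classical in
/-- the new gadget: one vertex and one copy of the old gadget for every label `W` -/
noncomputable def up [Finite K] [Finite X] (hN : k + j ≤ N) : Gad q K X k j N where
  V := Set (K × Set X) × Option G.V
  fin := by
    have := G.fin
    infer_instance
  sK := fun p => match p.2 with
    | none => True
    | some v => G.sK v
  sX := fun p => match p.2 with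
    | none => True
    | some v => G.sX v
  sKX := by
    rintro ⟨W, _ | v⟩ h
    · trivial
    · exact G.sKX v h
  B := G.upB
  rk := fun p => match p.2 with
    | none => 0
    | some v => G.rk v + 1
  rk_lt := by
    rintro ⟨W, _ | v⟩ ⟨W', o⟩ h
    · exact absurd h (Set.notMem_empty _)
    · obtain ⟨_, ⟨ho, _⟩ | ⟨u, hu, ho⟩⟩ := h
      · simp only at ho
        subst ho
        exact Nat.succ_pos _
      · simp only at ho
        subst ho
        exact Nat.succ_lt_succ (G.rk_lt v u hu)
  deg := by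
    rintro ⟨W, _ | v⟩
    · simp only [upB, Set.ncard_empty, if_true, zero_add]
      exact hN
    · have h1 := G.upB_ncard W v
      have h2 := G.deg v
      simp only
      split_ifs at h1 h2 ⊢ <;> omega
  closK := by
    rintro ⟨W, _ | v⟩ hs ⟨W', o⟩ h
    · exact absurd h (Set.notMem_empty _)
    · obtain ⟨_, ⟨ho, _⟩ | ⟨u, hu, ho⟩⟩ := h
      · simp only at ho
        subst ho
        trivial
      · simp only at ho
        subst ho
        exact G.closK v hs u hu
  closX := by
    rintro ⟨W, _ | v⟩ hs ⟨W', o⟩ h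
    · exact absurd h (Set.notMem_empty _)
    · obtain ⟨_, ⟨ho, _⟩ | ⟨u, hu, ho⟩⟩ := h
      · simp only at ho
        subst ho
        trivial
      · simp only at ho
        subst ho
        exact G.closX v hs u hu
  clique := by
    rintro ⟨W, _ | v⟩ ⟨W1, o1⟩ h1 ⟨W2, o2⟩ h2 hne
    · exact absurd h1 (Set.notMem_empty _)
    · obtain ⟨e1, h1⟩ := h1
      obtain ⟨e2, h2⟩ := h2
      simp only at e1 e2 h1 h2
      subst e1
      subst e2
      rcases h1 with ⟨rfl, hs1⟩ | ⟨u1, hu1, rfl⟩
      · rcases h2 with ⟨rfl, hs2⟩ | ⟨u2, hu2, rfl⟩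
        · exact absurd rfl hne
        · left
          exact ⟨rfl, Or.inl ⟨rfl, G.closX v hs1 u2 hu2⟩⟩
      · rcases h2 with ⟨rfl, hs2⟩ | ⟨u2, hu2, rfl⟩
        · right
          exact ⟨rfl, Or.inl ⟨rfl, G.closX v hs2 u1 hu1⟩⟩
        · have hne' : u1 ≠ u2 := fun e => hne (by rw [e])
          rcases G.clique v u1 hu1 u2 hu2 hne' with h | h
          · left
            exact ⟨rfl, Or.inr ⟨u1, h, rfl⟩⟩
          · right
            exact ⟨rfl, Or.inr ⟨u2, h, rfl⟩⟩
  g := fun p κ x c => match p.2 with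
    | none => guess p.1 (G.real (fun v => c (p.1, some v)))
        (κ, G.alive κ (fun v => c (p.1, some v))) x
    | some v => G.g v κ (x, c (p.1, none)) (fun v => c (p.1, some v))
  loc := by
    rintro ⟨W, _ | v⟩ κ κ' x x' c c' h1 h2 h3
    · simp only
      have e1 : κ = κ' := h1 trivial
      have e2 : x = x' := h2 trivial
      subst e1
      subst e2
      have h4 : ∀ v, G.sX v → c (W, some v) = c' (W, some v) := fun v hv =>
        h3 (W, some v) (Or.inr ⟨rfl, Or.inl ⟨rfl, hv⟩⟩)
      rw [G.alive_congr κ (ζ := fun v => c (W, some v)) (ζ' := fun v => c' (W, some v)) h4,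
        G.real_congr (z := fun v => c (W, some v)) (z' := fun v => c' (W, some v))
          (fun v hv => h4 v (G.sKX v hv))]
    · simp only
      apply G.loc
      · exact h1
      · intro hs
        rw [h2 hs, h3 (W, none) (Or.inl ⟨rfl, Or.inl ⟨rfl, hs⟩⟩)]
      · intro u hu
        apply h3
        rcases hu with hu | hu
        · exact Or.inl ⟨rfl, Or.inr ⟨u, hu, rfl⟩⟩
        · exact Or.inr ⟨rfl, Or.inr ⟨v, hu, rfl⟩⟩

/-- realisable families go up one level -/
lemma up_real [Finite K] [Finite X] (hN : k + j ≤ N) {M n : ℕ}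
    (h : ∀ z, Rz q M K n (X × Fin q) (G.real z)) (z : (G.up hN).V → Fin q) :
    Rz q M K (n + 1) X ((G.up hN).real z) := by
  intro W hW
  refine ⟨G.real (fun v => z (W, some v)), h _, ?_⟩
  by_contra hC
  obtain ⟨⟨κ, S⟩, hp, hkill⟩ := guess_kills hC (z (W, none))
  obtain ⟨ζ, hζ, hS⟩ := hW hp
  simp only at hS hkill
  have hzn : ζ (W, none) = z (W, none) := hζ (W, none) trivial
  have hzs : ∀ v, G.sK v → ζ (W, some v) = z (W, some v) := fun v hv => hζ (W, some v) hv
  have hin : (κ, G.alive κ (fun v => ζ (W, some v))) ∈ G.real (fun v => z (W, some v)) :=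
    ⟨fun v => ζ (W, some v), hzs, rfl⟩
  have key : ∀ x ∈ S, ∃ c : (G.up hN).V → Fin q, (∀ p, (G.up hN).sX p → c p = ζ p) ∧
      ∀ p, (G.up hN).g p κ x c ≠ c p := by
    intro x hx
    rw [hS] at hx
    exact hx
  obtain ⟨x, hx, hg⟩ := hkill _ hin (by
    intro x hx
    obtain ⟨c, hc1, hc2⟩ := key x hx
    refine ⟨fun v => c (W, some v), fun v hv => hc1 (W, some v) hv, fun v => ?_⟩
    have h1 := hc2 (W, some v)
    have h2 : c (W, none) = z (W, none) := (hc1 (W, none) trivial).trans hzn
    have h3 : (G.up hN).g (W, some v) κ x c =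
      G.g v κ (x, c (W, none)) (fun v => c (W, some v)) := rfl
    rw [h3, h2] at h1
    exact h1)
  obtain ⟨c, hc1, hc2⟩ := key x hx
  apply hc2 (W, none)
  have h3 : (G.up hN).g (W, none) κ x c = guess W (G.real (fun v => c (W, some v)))
      (κ, G.alive κ (fun v => c (W, some v))) x := rfl
  have h4 : ∀ v, G.sX v → c (W, some v) = ζ (W, some v) := fun v hv => hc1 (W, some v) hv
  rw [h3, G.alive_congr κ (ζ := fun v => c (W, some v)) (ζ' := fun v => ζ (W, some v)) h4,
    G.real_congr (z := fun v => c (W, some v)) (z' := fun v => z (W, some v))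
      (fun v hv => (h4 v (G.sKX v hv)).trans (hzs v hv)), hg]
  exact (hzn ▸ (hc1 (W, none) trivial)).symm

end Up

end Gad

end Pool.Agent.Lib.MP_994fee_co.Tri
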