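import Pool.Agent.Lib.MP_994fee_co.Tri.KeyDefs

/-!
# The last level of the counting argument
-/

set_option autoImplicit false

namespace Pool.Agent.Lib.MP_994fee_co.Tri

open Finset

/-- what a Hall violator looks like at the last level -/
lemma violator27 {q s a : ℕ} {K α Θ : Type} [Finite K] [Finite α] [Nonempty α] [Fintype Θ]
    {S0 : Set K} {w : Θ → K × Set α}
    (hw : Spread S0 s a w) (θ : Fin q → Θ) (p : K × Set (α × Fin q))
    (hbad : ¬ Good (fun y => w (θ y)) p) (hcard : p.2.ncard ≤ s) :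
    p.1 ∈ S0 ∧ ∃ m : ℕ, 1 ≤ m ∧ a * (m + 1) ≤ s ∧ ∃ e : Fin (m + 1) → Fin q, ∃ g : Fin m → α,
      Function.Injective e ∧ ∀ i, (w (θ (e i))).1 = p.1 ∧ (w (θ (e i))).2 ⊆ Set.range g := by
  classical
  obtain ⟨Y, hY, hlt⟩ := hall hbad
  obtain ⟨m, hm⟩ : ∃ m, Y.card = m + 1 := ⟨Y.card - 1, by omega⟩
  let e : Fin (m + 1) → Fin q := fun i => Y.orderEmbOfFin hm i
  have he : Function.Injective e := (Y.orderEmbOfFin hm).injective
  have heY : ∀ i, e i ∈ Y := fun i => Y.orderEmbOfFin_mem hm i
  have hd : ∀ i, Dem (fun y => w (θ y)) p (e i) := fun i => hY _ (heY i)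
  have hsubU : ∀ i, (w (θ (e i))).2 ⊆ ⋃ y ∈ Y, (w (θ y)).2 := fun i =>
    Set.subset_biUnion_of_mem (u := fun y => (w (θ y)).2) (heY i)
  have hm1 : 1 ≤ m := by
    have h1 := (hw.card (θ (e 0))).trans (Set.ncard_le_ncard (hsubU 0) (Set.toFinite _))
    have h2 := hw.pos
    omega
  refine ⟨?_, m, hm1, ?_, e, ?_⟩
  · have h1 := (hd 0).1
    simp only at h1
    rw [← h1]
    exact hw.mem _
  · have h1 : ∀ i : Fin (m + 1), a ≤ ((w (θ (e i))).2.toFinite.toFinset).card := by
      intro i
      rw [← Set.ncard_eq_toFinset_card _ _]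
      exact hw.card _
    have h2 : (Finset.univ.sigma
        (fun i : Fin (m + 1) => ((w (θ (e i))).2.toFinite.toFinset))).card ≤ p.2.ncard := by
      rw [Set.ncard_eq_toFinset_card _ (Set.toFinite _)]
      apply Finset.card_le_card_of_injOn (fun x => (x.2, e x.1))
      · rintro ⟨i, x⟩ hx
        simp only [Finset.coe_sigma, Set.mem_sigma_iff, Finset.mem_coe, Finset.mem_univ, true_and,
          Set.Finite.mem_toFinset] at hx
        simp only [Finset.mem_coe, Set.Finite.mem_toFinset]
        exact (hd i).2 x hx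
      · rintro ⟨i, x⟩ _ ⟨i', x'⟩ _ h
        simp only [Prod.mk.injEq] at h
        obtain ⟨rfl, h2⟩ := h
        have := he h2
        subst this
        rfl
    rw [Finset.card_sigma] at h2
    have h3 : (m + 1) * a ≤ ∑ i : Fin (m + 1), ((w (θ (e i))).2.toFinite.toFinset).card := by
      have := Finset.card_nsmul_le_sum (Finset.univ : Finset (Fin (m + 1)))
        (fun i => ((w (θ (e i))).2.toFinite.toFinset).card) a (fun i _ => h1 i)
      simpa using this
    have h4 : a * (m + 1) = (m + 1) * a := by ring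
    omega
  · have hU : (⋃ y ∈ Y, (w (θ y)).2).ncard ≤ m := by omega
    set U := ⋃ y ∈ Y, (w (θ y)).2 with hUdef
    have hne : U.Nonempty := by
      rw [← Set.ncard_pos (Set.toFinite _)]
      have h1 := (hw.card (θ (e 0))).trans (Set.ncard_le_ncard (hsubU 0) (Set.toFinite _))
      have h2 := hw.pos
      omega
    obtain ⟨g, hg⟩ : ∃ g : Fin m → α, U ⊆ Set.range g := by
      have hfin : U.Finite := Set.toFinite _
      let F := hfin.toFinset
      have hF : F.card ≤ m := by
        rw [← Set.ncard_eq_toFinset_card _ hfin]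
        exact hU
      obtain ⟨u0, hu0⟩ := hne
      refine ⟨fun i => if h : (i : ℕ) < F.card then (F.equivFin.symm ⟨i, h⟩ : F) else u0, ?_⟩
      intro x hx
      have hxF : x ∈ F := hfin.mem_toFinset.mpr hx
      have h1 : ((F.equivFin ⟨x, hxF⟩ : Fin F.card) : ℕ) < m :=
        lt_of_lt_of_le (F.equivFin ⟨x, hxF⟩).2 hF
      refine ⟨⟨_, h1⟩, ?_⟩
      simp
    exact ⟨g, he, fun i => ⟨(hd i).1, (hsubU i).trans hg⟩⟩

theorem last_level27 {q s a : ℕ} {K α Θ : Type} [Finite K] [Finite α] [Nonempty α] [Fintype Θ]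
    [Nonempty Θ] {S0 : Set K} (hs : 1 ≤ s) (hS0 : S0.ncard = s) {w : Θ → K × Set α}
    (hw : Spread S0 s a w) (w' : (Fin q → Θ) → K × Set (α × Fin q))
    (hbad : ∀ θ, ¬ Good (fun y => w (θ y)) (w' θ)) (hcard : ∀ θ, (w' θ).2.ncard ≤ s)
    (hq : 2 * s * (q * Nat.card α) ≤ a ^ a) : False := by
  classical
  have := Fintype.ofFinite α
  have hSf : S0.Finite := Set.toFinite _
  have : Fintype S0 := hSf.fintype
  have hcS : Fintype.card S0 = s := by
    rw [← hS0, ← Nat.card_eq_fintype_card]
    rfl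
  have ha : 1 ≤ a := hw.pos
  have hs0 : (0 : ℝ) < s := by exact_mod_cast hs
  have ha0 : (0 : ℝ) < a := by exact_mod_cast ha
  have hA0 : (0 : ℝ) < (a : ℝ) ^ a := by positivity
  -- the share of one event
  let E : S0 → Fin s → (Fin q → Θ) → Prop := fun κ m θ =>
    1 ≤ (m : ℕ) ∧ a * ((m : ℕ) + 1) ≤ s ∧ ∃ e : Fin ((m : ℕ) + 1) → Fin q, ∃ g : Fin (m : ℕ) → α,
      Function.Injective e ∧ ∀ i, (w (θ (e i))).1 = (κ : K) ∧ (w (θ (e i))).2 ⊆ Set.range g
  have hE : ∀ κ m, dens (E κ m) ≤ (1 / (2 * s)) ^ 2 := by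
    intro κ m
    by_cases hm : 1 ≤ (m : ℕ) ∧ a * ((m : ℕ) + 1) ≤ s
    swap
    · have : dens (E κ m) ≤ 0 := by
        rw [dens_def]
        rw [Finset.filter_false_of_mem (fun θ _ hθ => hm ⟨hθ.1, hθ.2.1⟩)]
        simp
      exact this.trans (by positivity)
    obtain ⟨hm1, hm2⟩ := hm
    have h1 : dens (E κ m) ≤ ∑ e : Fin ((m : ℕ) + 1) → Fin q, ∑ g : Fin (m : ℕ) → α,
        (1 / (a : ℝ) ^ a) ^ ((m : ℕ) + 1) := by
      calc dens (E κ m) ≤ dens (fun θ : Fin q → Θ => ∃ e : Fin ((m : ℕ) + 1) → Fin q,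
            ∃ g : Fin (m : ℕ) → α, Function.Injective e ∧
              ∀ i, (w (θ (e i))).1 = (κ : K) ∧ (w (θ (e i))).2 ⊆ Set.range g) :=
            dens_mono (fun θ hθ => hθ.2.2)
        _ ≤ ∑ e : Fin ((m : ℕ) + 1) → Fin q, dens (fun θ : Fin q → Θ =>
            ∃ g : Fin (m : ℕ) → α, Function.Injective e ∧
              ∀ i, (w (θ (e i))).1 = (κ : K) ∧ (w (θ (e i))).2 ⊆ Set.range g) :=
            dens_exists_le _
        _ ≤ ∑ e : Fin ((m : ℕ) + 1) → Fin q, ∑ g : Fin (m : ℕ) → α,
            dens (fun θ : Fin q → Θ => Function.Injective e ∧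
              ∀ i, (w (θ (e i))).1 = (κ : K) ∧ (w (θ (e i))).2 ⊆ Set.range g) :=
            Finset.sum_le_sum (fun e _ => dens_exists_le _)
        _ ≤ _ := by
            apply Finset.sum_le_sum
            intro e _
            apply Finset.sum_le_sum
            intro g _
            by_cases he : Function.Injective e
            swap
            · have : dens (fun θ : Fin q → Θ => Function.Injective e ∧
                  ∀ i, (w (θ (e i))).1 = (κ : K) ∧ (w (θ (e i))).2 ⊆ Set.range g) ≤ 0 := by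
                rw [dens_def]
                rw [Finset.filter_false_of_mem (fun θ _ hθ => he hθ.1)]
                simp
              exact this.trans (by positivity)
            calc dens (fun θ : Fin q → Θ => Function.Injective e ∧
                  ∀ i, (w (θ (e i))).1 = (κ : K) ∧ (w (θ (e i))).2 ⊆ Set.range g)
                ≤ dens (fun θ : Fin q → Θ =>
                  ∀ i, (w (θ (e i))).1 = (κ : K) ∧ (w (θ (e i))).2 ⊆ Set.range g) :=
                  dens_mono (fun θ hθ => hθ.2)
              _ = ∏ _i : Fin ((m : ℕ) + 1),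
                  dens (fun t => (w t).1 = (κ : K) ∧ (w t).2 ⊆ Set.range g) :=
                  dens_pi e he (fun _ t => (w t).1 = (κ : K) ∧ (w t).2 ⊆ Set.range g)
              _ ≤ ∏ _i : Fin ((m : ℕ) + 1), (1 / (a : ℝ) ^ a) := by
                  apply Finset.prod_le_prod (fun _ _ => dens_nonneg _)
                  intro i _
                  refine (hw.dens_le κ (Set.range g)).trans ?_
                  rw [← one_div_pow]
                  apply pow_le_pow_left₀ (by positivity)
                  rw [div_le_div_iff₀ hs0 ha0, one_mul]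
                  have h2 : (Set.range g).ncard ≤ m := by
                    rw [← Set.image_univ]
                    refine (Set.ncard_image_le (Set.toFinite _)).trans ?_
                    rw [Set.ncard_univ, Nat.card_fin]
                  have h3 : (Set.range g).ncard * a ≤ s := by
                    calc (Set.range g).ncard * a ≤ ((m : ℕ) + 1) * a :=
                          Nat.mul_le_mul_right _ (h2.trans (Nat.le_succ _))
                      _ = a * ((m : ℕ) + 1) := by ring
                      _ ≤ s := hm2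
                  exact_mod_cast h3
              _ = _ := by simp
    refine h1.trans ?_
    simp only [Finset.sum_const, Finset.card_univ, Fintype.card_pi, Finset.prod_const,
      Fintype.card_fin, nsmul_eq_mul]
    rw [Nat.card_eq_fintype_card] at hq
    have hc1 : (1 : ℝ) ≤ Fintype.card α := by exact_mod_cast Fintype.card_pos
    have hx : (q : ℝ) * Fintype.card α / (a : ℝ) ^ a ≤ 1 / (2 * s) := by
      rw [div_le_div_iff₀ hA0 (by positivity), one_mul]
      have : ((2 * s * (q * Fintype.card α) : ℕ) : ℝ) ≤ ((a ^ a : ℕ) : ℝ) := by exact_mod_cast hq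
      push_cast at this
      linarith
    have hx0 : 0 ≤ (q : ℝ) * Fintype.card α / (a : ℝ) ^ a := by positivity
    have hle1 : (1 : ℝ) / (2 * s) ≤ 1 := by
      rw [div_le_one (by positivity)]
      have : (1 : ℝ) ≤ s := by exact_mod_cast hs
      linarith
    push_cast
    calc (q : ℝ) ^ ((m : ℕ) + 1) * ((Fintype.card α : ℝ) ^ (m : ℕ) *
          (1 / (a : ℝ) ^ a) ^ ((m : ℕ) + 1))
        ≤ (q : ℝ) ^ ((m : ℕ) + 1) * ((Fintype.card α : ℝ) ^ ((m : ℕ) + 1) *
          (1 / (a : ℝ) ^ a) ^ ((m : ℕ) + 1)) := by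
          gcongr
          · omega
      _ = ((q : ℝ) * Fintype.card α / (a : ℝ) ^ a) ^ ((m : ℕ) + 1) := by
          rw [← mul_pow, ← mul_pow]
          congr 1
          ring
      _ ≤ (1 / (2 * s)) ^ ((m : ℕ) + 1) := pow_le_pow_left₀ hx0 hx _
      _ ≤ (1 / (2 * s)) ^ 2 := pow_le_pow_of_le_one (by positivity) hle1 (by omega)
  have h1 : dens (fun _ : Fin q → Θ => True) = 1 := dens_univ (fun _ => trivial)
  have h2 : dens (fun _ : Fin q → Θ => True) ≤ dens (fun θ => ∃ κ, ∃ m, E κ m θ) := by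
    apply dens_mono
    intro θ _
    obtain ⟨hp, m, hm1, hm2, e, g, he, hall⟩ := violator27 hw θ (w' θ) (hbad θ) (hcard θ)
    have hms : m < s := by
      have : 1 * (m + 1) ≤ a * (m + 1) := Nat.mul_le_mul_right _ ha
      omega
    exact ⟨⟨_, hp⟩, ⟨m, hms⟩, hm1, hm2, e, g, he, hall⟩
  have h3 : dens (fun θ => ∃ κ, ∃ m, E κ m θ) ≤ ∑ _κ : S0, ∑ _m : Fin s, (1 / (2 * (s : ℝ))) ^ 2 :=
    (dens_exists_le _).trans (Finset.sum_le_sum fun κ _ =>
      (dens_exists_le _).trans (Finset.sum_le_sum fun m _ => hE κ m))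
  simp only [Finset.sum_const, Finset.card_univ, hcS, Fintype.card_fin, nsmul_eq_mul] at h3
  have h4 : (s : ℝ) * (s * (1 / (2 * (s : ℝ))) ^ 2) = 1 / 4 := by
    field_simp
    norm_num
  rw [h4] at h3
  linarith

end Pool.Agent.Lib.MP_994fee_co.Tri
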