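import Pool.Agent.Lib.MP_994fee_co.Tri.RowA13
import Pool.Agent.Lib.MP_994fee_co.Tri.RowB27

/-!
# The counting argument: the whole chain
-/

set_option autoImplicit false

namespace Pool.Agent.Lib.MP_994fee_co.Tri

theorem key {q s : ℕ} [NeZero q] {K : Type} [Finite K] {S0 : Set K} (hs : 1 ≤ s)
    (hS0 : S0.ncard = s) (n : ℕ) :
    ∀ (α : Type) [Finite α] [Nonempty α] (Θ : Type) [Fintype Θ] [Nonempty Θ] (w : Θ → K × Set α)
      (a : ℕ), Spread S0 s a w → Rz q (s + 1) K (n + 1) α (Set.range w) →
      2 * s * (q * (Nat.card α * q ^ n)) ≤ (f^[n] a) ^ (f^[n] a) → False := by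
  classical
  induction n with
  | zero =>
    intro α _ _ Θ _ _ w a hw hR hq
    obtain ⟨V, hV, hC⟩ := hR _ subset_rfl
    choose w' hw' using fun θ : Fin q → Θ => hC (fun y => w (θ y)) (fun y => ⟨θ y, rfl⟩)
    exact last_level27 hs hS0 hw w' (fun θ => (hw' θ).2)
      (fun θ => Nat.lt_succ_iff.mp (hV _ (hw' θ).1)) (by simpa using hq)
  | succ n ih =>
    intro α _ _ Θ _ _ w a hw hR hq
    obtain ⟨V, hV, hC⟩ := hR _ subset_rfl
    choose w' hw' using fun θ : Fin q → Θ => hC (fun y => w (θ y)) (fun y => ⟨θ y, rfl⟩)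
    refine ih (α × Fin q) (Fin q → Θ) w' (f a)
      (spread_step13 hs hw w' (fun θ => (hw' θ).2)) (Rz_mono ?_ hV) ?_
    · rintro _ ⟨θ, rfl⟩
      exact (hw' θ).1
    · rw [Nat.card_prod, Nat.card_fin]
      have e : q * (Nat.card α * q * q ^ n) = q * (Nat.card α * q ^ (n + 1)) := by ring
      rw [e]
      simpa using hq

/-- The chain, started at the root. -/
theorem root_bound {q s h : ℕ} [NeZero q] {K : Type} [Finite K] {S0 : Set K} (hs : 1 ≤ s)
    (hS0 : S0.ncard = s)
    (hR : Rz q (s + 1) K (h + 1) Unit {p | p.1 ∈ S0 ∧ p.2 = Set.univ})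
    (hq : 2 * s * q ^ (h + 1) ≤ (f^[h] 1) ^ (f^[h] 1)) : False := by
  classical
  have hfin : S0.Finite := Set.toFinite _
  have : Fintype S0 := hfin.fintype
  have hcard : Fintype.card S0 = s := by
    rw [← hS0, ← Nat.card_eq_fintype_card]
    rfl
  have : Nonempty S0 := by
    rw [← Fintype.card_pos_iff, hcard]
    exact hs
  refine key hs hS0 h Unit S0 (fun κ => ((κ : K), Set.univ)) 1 ?_ (Rz_mono ?_ hR) ?_
  · refine ⟨le_refl _, fun t => t.2, fun t => ?_, fun κ U => ?_⟩
    · simp
    · rcases Set.eq_empty_or_nonempty U with hU | ⟨u, hu⟩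
      · have : dens (fun t : S0 => (t : K) = κ ∧ (Set.univ : Set Unit) ⊆ U) ≤ 0 := by
          rw [dens_def]
          have : Finset.univ.filter (fun t : S0 => (t : K) = κ ∧ (Set.univ : Set Unit) ⊆ U) = ∅ := by
            apply Finset.filter_false_of_mem
            rintro t - ⟨_, h2⟩
            have := h2 (Set.mem_univ ())
            rw [hU] at this
            exact this
          rw [this]
          simp
        refine this.trans (by positivity)
      · have hU' : U = Set.univ := by
          ext x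
          simp only [Set.mem_univ, iff_true]
          exact hu
        rw [dens_def, hcard, hU', pow_one]
        apply div_le_div_of_nonneg_right _ (Nat.cast_nonneg _)
        have h1 : (Set.univ : Set Unit).ncard = 1 := by simp
        rw [h1]
        norm_cast
        apply Finset.card_le_one.mpr
        intro x hx y hy
        simp only [Finset.mem_filter, Finset.mem_univ, true_and] at hx hy
        exact Subtype.ext (hx.1.trans hy.1.symm)
  · rintro _ ⟨t, rfl⟩
    exact ⟨t.2, rfl⟩
  · rw [Nat.card_unique, one_mul]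
    have e : q * q ^ h = q ^ (h + 1) := by ring
    rw [e]
    exact hq

end Pool.Agent.Lib.MP_994fee_co.Tri
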