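import Pool.Agent.Lib.MP_994fee_co.Defs
import Pool.Agent.Lib.MP_994fee_co.Tri.Gad
import Pool.Agent.Lib.MP_994fee_co.Tri.Key27

/-!
# From gadgets to graphs
-/

set_option autoImplicit false

namespace Pool.Agent.Lib.MP_994fee_co.Tri

open Pool.Agent.Lib.MP_994fee_co

/-- colours of a path with `n` vertices -/
def XT (q : ℕ) : ℕ → Type
  | 0 => Unit
  | n + 1 => XT q n × Fin q

instance XT_finite (q n : ℕ) : Finite (XT q n) := by
  induction n with
  | zero => exact inferInstanceAs (Finite Unit)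
  | succ n ih => exact inferInstanceAs (Finite (XT q n × Fin q))

instance XT_nonempty (q n : ℕ) [NeZero q] : Nonempty (XT q n) := by
  induction n with
  | zero => exact inferInstanceAs (Nonempty Unit)
  | succ n ih => exact inferInstanceAs (Nonempty (XT q n × Fin q))

lemma XT_card (q n : ℕ) : Nat.card (XT q n) = q ^ n := by
  induction n with
  | zero =>
    show Nat.card Unit = q ^ 0
    simp
  | succ n ih =>
    show Nat.card (XT q n × Fin q) = q ^ (n + 1)
    rw [Nat.card_prod, ih, Nat.card_fin, pow_succ]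

namespace Gad

/-- the outer colours that survive are always fewer than `M` -/
def Few {q h N : ℕ} (G : Gad q (XT q h) Unit h 0 N) (M : ℕ) : Prop :=
  ∀ z : G.V → Fin q, {κ : XT q h | ∃ c : G.V → Fin q, (∀ v, G.sK v → c v = z v) ∧
    ∀ v, G.g v κ () c ≠ c v}.ncard < M

/-- the old gadget at the end of a path -/
def bottom {q h N : ℕ} (G : Gad q (XT q h) Unit h 0 N) (K : Type) (k : ℕ) :
    Gad q K (XT q h) k h N where
  V := G.V
  fin := G.fin
  sK := fun _ => False
  sX := G.sK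
  sKX := fun _ h => h.elim
  B := G.B
  rk := G.rk
  rk_lt := G.rk_lt
  deg := by
    intro v
    have := G.deg v
    simp only [if_false]
    split_ifs at this ⊢ <;> omega
  closK := fun _ h => h.elim
  closX := G.closK
  clique := G.clique
  g := fun v _ x c => G.g v x () c
  loc := fun v _ _ x x' c c' _ h2 h3 => G.loc v x x' () () c c' h2 (fun _ => rfl) h3

lemma bottom_real {q h N M : ℕ} (G : Gad q (XT q h) Unit h 0 N) (hG : G.Few M) (K : Type) (k : ℕ)
    (z : G.V → Fin q) : Rz q M K 0 (XT q h) ((G.bottom K k).real z) := by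
  rintro ⟨κ, A⟩ ⟨ζ, _, hA⟩
  simp only at hA ⊢
  rw [hA]
  exact hG ζ

/-- all levels of the forest -/
lemma chain {q h N M : ℕ} [NeZero q] (G : Gad q (XT q h) Unit h 0 N) (hG : G.Few M) (K : Type)
    [Finite K] (k : ℕ) (hN : k + h ≤ N + 1) (n : ℕ) : ∀ j, j + n = h →
    ∃ Γ : Gad q K (XT q j) k j N, ∀ z, Rz q M K n (XT q j) (Γ.real z) := by
  induction n with
  | zero =>
    intro j hj
    have hj' : j = h := by omega
    subst hj'
    exact ⟨G.bottom K k, G.bottom_real hG K k⟩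
  | succ n ih =>
    intro j hj
    obtain ⟨Γ, hΓ⟩ := ih (j + 1) (by omega)
    exact ⟨Gad.up (K := K) (X := XT q j) Γ (by omega), Gad.up_real Γ (by omega) hΓ⟩

/-- the empty gadget -/
def empty (q h N : ℕ) : Gad q (XT q h) Unit h 0 N where
  V := Empty
  fin := inferInstance
  sK := fun _ => False
  sX := fun _ => False
  sKX := fun _ h => h
  B := fun _ => ∅
  rk := fun _ => 0
  rk_lt := fun v => v.elim
  deg := fun v => v.elim
  closK := fun v => v.elim
  closX := fun v => v.elim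
  clique := fun v => v.elim
  g := fun v => v.elim
  loc := fun v => v.elim

lemma few_empty (q h N : ℕ) : (empty q h N).Few (q ^ h + 1) := by
  intro z
  rw [Nat.lt_succ_iff, ← XT_card q h, ← Set.ncard_univ]
  exact Set.ncard_le_ncard (Set.subset_univ _) (Set.toFinite _)

end Gad

/-- The step: one survivor less. -/
theorem few_step {q h s : ℕ} [NeZero q] (hs : 1 ≤ s)
    (hq : 2 * q ^ (2 * (h + 1)) ≤ (f^[h] 1) ^ (f^[h] 1))
    (H : ∃ G : Gad q (XT q (h + 1)) Unit (h + 1) 0 (2 * h + 1), G.Few (s + 1)) :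
    ∃ G : Gad q (XT q (h + 1)) Unit (h + 1) 0 (2 * h + 1), G.Few s := by
  obtain ⟨G, hG⟩ := H
  obtain ⟨Γ, hΓ⟩ := G.chain hG (XT q (h + 1)) (h + 1) (by omega) (h + 1) 0 (by omega)
  refine ⟨Γ, fun z => ?_⟩
  by_contra hcon
  rw [not_lt] at hcon
  obtain ⟨S0, hsub, hcard⟩ := Set.exists_subset_card_eq hcon
  have hsq : s ≤ q ^ (h + 1) := by
    rw [← hcard, ← XT_card q (h + 1), ← Set.ncard_univ]
    exact Set.ncard_le_ncard (Set.subset_univ _) (Set.toFinite _)
  refine root_bound hs hcard (Rz_mono ?_ (hΓ z)) ?_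
  · rintro ⟨κ, A⟩ ⟨h1, h2⟩
    simp only at h1 h2
    obtain ⟨c, hc1, hc2⟩ := hsub h1
    refine ⟨c, hc1, ?_⟩
    simp only
    rw [h2]
    symm
    apply Set.eq_univ_of_forall
    intro x
    exact ⟨c, fun v _ => rfl, hc2⟩
  · refine le_trans ?_ hq
    calc 2 * s * q ^ (h + 1) ≤ 2 * q ^ (h + 1) * q ^ (h + 1) := by gcongr
      _ = 2 * q ^ (2 * (h + 1)) := by ring

theorem few_one {q h : ℕ} [NeZero q] (hq : 2 * q ^ (2 * (h + 1)) ≤ (f^[h] 1) ^ (f^[h] 1)) :
    ∃ G : Gad q (XT q (h + 1)) Unit (h + 1) 0 (2 * h + 1), G.Few 1 := by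
  have key : ∀ t, t ≤ q ^ (h + 1) →
      ∃ G : Gad q (XT q (h + 1)) Unit (h + 1) 0 (2 * h + 1), G.Few (q ^ (h + 1) - t + 1) := by
    intro t
    induction t with
    | zero => exact fun _ => ⟨Gad.empty q (h + 1) _, Gad.few_empty q (h + 1) _⟩
    | succ t ih =>
      intro ht
      have := ih (by omega)
      have e : q ^ (h + 1) - t = q ^ (h + 1) - (t + 1) + 1 := by omega
      rw [e] at this
      exact few_step (by omega) hq this
  have := key (q ^ (h + 1)) le_rfl
  rwa [Nat.sub_self, zero_add] at this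

/-- The graph of a gadget. -/
def Gad.graph {q k j N : ℕ} {K X : Type} (G : Gad q K X k j N) : SimpleGraph G.V where
  Adj u v := u ∈ G.B v ∨ v ∈ G.B u
  symm := ⟨fun _ _ h => h.symm⟩
  loopless := ⟨fun v h => by
    have h' : v ∈ G.B v := by tauto
    exact (G.rk_lt v v h').false⟩

theorem main {q h : ℕ} (hq0 : 1 ≤ q) (hq : 2 * q ^ (2 * (h + 1)) ≤ (f^[h] 1) ^ (f^[h] 1)) :
    ∃ (V : Type) (_ : Fintype V) (G : SimpleGraph V) (s : V → (V → Fin q) → Fin q),
      TreewidthLE (2 * h + 1) G ∧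
      (∃ ι : V → ℕ, Function.Injective ι ∧
        ∀ v : V, {w : V | G.Adj v w ∧ ι w < ι v}.ncard ≤ 2 * h + 1) ∧
      IsWinning G q s := by
  classical
  have : NeZero q := ⟨by omega⟩
  obtain ⟨G, hG⟩ := few_one hq
  have hfin := G.fin
  obtain ⟨κ⟩ : Nonempty (XT q (h + 1)) := inferInstance
  have hFt : Fintype G.V := Fintype.ofFinite _
  let n := Fintype.card G.V
  let e : G.V ≃ Fin n := Fintype.equivFin _
  let rk : G.V → ℕ := fun v => G.rk v * n + (e v : ℕ)
  have hrk : ∀ u v, G.rk u < G.rk v → rk u < rk v := by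
    intro u v huv
    have h1 : (e u : ℕ) < n := (e u).2
    have h2 : (G.rk u + 1) * n ≤ G.rk v * n := Nat.mul_le_mul_right _ huv
    have h3 : (G.rk u + 1) * n = G.rk u * n + n := by ring
    show G.rk u * n + (e u : ℕ) < G.rk v * n + (e v : ℕ)
    omega
  have hinj : Function.Injective rk := by
    intro u v huv
    rcases lt_trichotomy (G.rk u) (G.rk v) with hlt | heq | hgt
    · exact absurd huv (hrk u v hlt).ne
    · have : (e u : ℕ) = (e v : ℕ) := by
        have h1 : G.rk u * n + (e u : ℕ) = G.rk v * n + (e v : ℕ) := huv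
        rw [heq] at h1
        omega
      exact e.injective (Fin.ext this)
    · exact absurd huv (hrk v u hgt).ne'
  have hlow : ∀ v w, (G.graph.Adj v w ∧ rk w < rk v) → w ∈ G.B v := by
    rintro v w ⟨h1 | h1, h2⟩
    · exact absurd h2 (not_lt.mpr (hrk v w (G.rk_lt w v h1)).le)
    · exact h1
  have hdeg : ∀ v, {w : G.V | G.graph.Adj v w ∧ rk w < rk v}.ncard ≤ 2 * h + 1 := by
    intro v
    refine (Set.ncard_le_ncard (t := G.B v) (fun w hw => hlow v w hw) (Set.toFinite _)).trans ?_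
    have := G.deg v
    omega
  refine ⟨G.V, hFt, G.graph, fun v c => G.g v κ () c, ?_, ⟨rk, hinj, hdeg⟩, ?_, ?_⟩
  · refine ⟨G.graph, rk, le_rfl, hinj, fun v => ⟨hdeg v, ?_⟩⟩
    intro w w' h1 h2 h1' h2' hne
    exact G.clique v w (hlow v w ⟨h1, h2⟩) w' (hlow v w' ⟨h1', h2'⟩) hne
  · intro v c c' hcc
    apply G.loc
    · exact fun _ => rfl
    · exact fun _ => rfl
    · intro u hu
      exact hcc u hu.symm
  · intro c
    by_contra hcon
    push Not at hcon
    have h1 := hG c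
    have h2 : {κ : XT q (h + 1) | ∃ c' : G.V → Fin q, (∀ v, G.sK v → c' v = c v) ∧
        ∀ v, G.g v κ () c' ≠ c' v}.Nonempty := ⟨κ, c, fun _ _ => rfl, hcon⟩
    have h3 := (Set.ncard_pos (Set.toFinite _)).mpr h2
    omega

end Pool.Agent.Lib.MP_994fee_co.Tri
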