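import Pool.Agent.Lib.MP_994fee_co.Tri.Comb

/-!
# The counting argument: definitions
-/

set_option autoImplicit false

namespace Pool.Agent.Lib.MP_994fee_co.Tri

/-- `1, 2, 6, 42, ...` from a starting value -/
def f (a : ℕ) : ℕ := a * (a + 1)

/-- the assumptions on the random item -/
structure Spread {K α Θ : Type} [Fintype Θ] (S0 : Set K) (s a : ℕ) (w : Θ → K × Set α) : Prop where
  pos : 1 ≤ a
  mem : ∀ t, (w t).1 ∈ S0
  card : ∀ t, a ≤ (w t).2.ncard
  dens_le : ∀ (κ : K) (U : Set α),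
    dens (fun t => (w t).1 = κ ∧ (w t).2 ⊆ U) ≤ ((U.ncard : ℝ) / s) ^ a

end Pool.Agent.Lib.MP_994fee_co.Tri
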