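import Pool.Agent.Lib.MP_994fee_co.Tri.KeyDefs

/-!
# Closing numerics of the triple exponential lower bound
-/

set_option autoImplicit false
set_option exponentiation.threshold 30000

namespace Pool.Agent.Lib.MP_994fee_co.Tri

/-- `a_{n+1} ≥ 2^(2^n)`. -/
theorem iter_ge13 (n : ℕ) : 2 ^ 2 ^ n ≤ f^[n + 1] 1 := by
  induction n with
  | zero => decide
  | succ n ih =>
    rw [Function.iterate_succ_apply']
    calc 2 ^ 2 ^ (n + 1) = 2 ^ 2 ^ n * 2 ^ 2 ^ n := by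
          rw [← pow_add]
          congr 1
          rw [pow_succ]
          ring
      _ ≤ f^[n + 1] 1 * (f^[n + 1] 1 + 1) := Nat.mul_le_mul ih (ih.trans (Nat.le_succ _))
      _ = f (f^[n + 1] 1) := rfl

theorem two_mul_le13 (h : ℕ) : 2 * (h + 6) + 1 ≤ 2 ^ (h + 4) := by
  induction h with
  | zero => norm_num
  | succ h ih =>
    have h1 : 2 ^ (h + 1 + 4) = 2 * 2 ^ (h + 4) := by
      rw [show h + 1 + 4 = h + 4 + 1 by ring, pow_succ]
      ring
    omega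

/-- For `h ≥ 4` the number `q = 2^(2^(2^(h-2)))` of colours is admissible. -/
theorem numH13 (h : ℕ) (hh : 4 ≤ h) :
    2 * (2 ^ 2 ^ 2 ^ (h - 2)) ^ (2 * h) ≤ (f^[h - 1] 1) ^ (f^[h - 1] 1) := by
  rcases Nat.lt_or_ge h 6 with h6 | h6
  · have h45 : h = 4 ∨ h = 5 := by omega
    rcases h45 with rfl | rfl
    · have e : f^[4 - 1] 1 = 42 := by decide
      rw [e]
      norm_num
    · have e : f^[5 - 1] 1 = 1806 := by decide
      rw [e]
      norm_num
  · obtain ⟨m, rfl⟩ : ∃ m, h = m + 6 := ⟨h - 6, by omega⟩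
    have e1 : m + 6 - 2 = m + 4 := by omega
    have e2 : m + 6 - 1 = m + 4 + 1 := by omega
    rw [e1, e2]
    set A : ℕ := 2 ^ 2 ^ (m + 4) with hA
    have h1 : A ≤ f^[m + 4 + 1] 1 := iter_ge13 (m + 4)
    have hA1 : 1 ≤ A := Nat.one_le_two_pow
    calc 2 * (2 ^ A) ^ (2 * (m + 6)) = 2 ^ (A * (2 * (m + 6)) + 1) := by
          rw [← pow_mul, pow_succ]
          ring
      _ ≤ 2 ^ (2 ^ (m + 4) * A) := by
          apply Nat.pow_le_pow_right (by norm_num)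
          have h2 := two_mul_le13 m
          calc A * (2 * (m + 6)) + 1 ≤ A * (2 * (m + 6)) + A := by omega
            _ = (2 * (m + 6) + 1) * A := by ring
            _ ≤ 2 ^ (m + 4) * A := Nat.mul_le_mul_right A h2
      _ = A ^ A := by
          nth_rewrite 2 [hA]
          rw [← pow_mul]
      _ ≤ (f^[m + 4 + 1] 1) ^ (f^[m + 4 + 1] 1) :=
          (Nat.pow_le_pow_left h1 A).trans (Nat.pow_le_pow_right (by omega) h1)

/-- The same with `h = n + 2`. -/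
theorem num13 (n : ℕ) (hn : 2 ≤ n) :
    2 * (2 ^ 2 ^ 2 ^ n) ^ (2 * (n + 2)) ≤ (f^[n + 1] 1) ^ (f^[n + 1] 1) :=
  numH13 (n + 2) (by omega)

/-- `a_{n+1} ≥ 2^(5 * 2^(n-2))` for `n ≥ 2`. -/
theorem a_ge13 (n : ℕ) (hn : 2 ≤ n) : 2 ^ (5 * 2 ^ (n - 2)) ≤ f^[n + 1] 1 := by
  obtain ⟨m, rfl⟩ : ∃ m, n = m + 2 := ⟨n - 2, by omega⟩
  rw [Nat.add_sub_cancel]
  clear hn
  induction m with
  | zero => decide
  | succ m ih =>
    rw [show m + 1 + 2 + 1 = (m + 2 + 1) + 1 by ring, Function.iterate_succ_apply']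
    calc 2 ^ (5 * 2 ^ (m + 1)) = 2 ^ (5 * 2 ^ m) * 2 ^ (5 * 2 ^ m) := by
          rw [← pow_add]
          congr 1
          rw [pow_succ]
          ring
      _ ≤ f^[m + 2 + 1] 1 * (f^[m + 2 + 1] 1 + 1) := Nat.mul_le_mul ih (ih.trans (Nat.le_succ _))
      _ = f (f^[m + 2 + 1] 1) := rfl

end Pool.Agent.Lib.MP_994fee_co.Tri
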