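import Pool.Agent.Lib.MP_994fee_co.Tri.KeyDefs

/-!
# One level down: violators of spread items are spread
-/

set_option autoImplicit false

namespace Pool.Agent.Lib.MP_994fee_co.Tri

open Finset

/-- The section of `U` at `y`. -/
def sec13 {q : ℕ} {α : Type} (U : Set (α × Fin q)) (y : Fin q) : Set α := {x | (x, y) ∈ U}

theorem sum_sec13 {q : ℕ} {α : Type} [Finite α] (U : Set (α × Fin q)) :
    ∑ y, (sec13 U y).ncard = U.ncard := by
  classical
  have := Fintype.ofFinite α
  rw [Set.ncard_eq_toFinset_card' U, card_eq_sum_card_fiberwise (f := fun z : α × Fin q => z.2)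
    (t := univ) (fun _ _ => mem_coe.2 (mem_univ _))]
  apply sum_congr rfl
  intro y _
  rw [Set.ncard_eq_toFinset_card']
  apply card_bij (fun x _ => (x, y))
  · intro x hx
    rw [Set.mem_toFinset] at hx
    rw [mem_filter, Set.mem_toFinset]
    exact ⟨hx, rfl⟩
  · intro x _ x' _ h
    exact congrArg Prod.fst h
  · rintro ⟨x, y'⟩ hz
    rw [mem_filter, Set.mem_toFinset] at hz
    obtain ⟨h1, h2⟩ := hz
    simp only at h2
    subst h2
    exact ⟨x, by rw [Set.mem_toFinset]; exact h1, rfl⟩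

theorem violator13 {q s a : ℕ} {K α Θ : Type} [Finite α] [Nonempty α] [Fintype Θ]
    {S0 : Set K} {w : Θ → K × Set α} (hw : Spread S0 s a w)
    {θ : Fin q → Θ} {p : K × Set (α × Fin q)} (hbad : ¬ Good (fun y => w (θ y)) p) :
    ∃ Y : Finset (Fin q), a + 1 ≤ Y.card ∧ ∀ y ∈ Y, (w (θ y)).1 = p.1 ∧ (w (θ y)).2 ⊆ sec13 p.2 y := by
  obtain ⟨Y, hY, hc⟩ := hall hbad
  refine ⟨Y, ?_, hY⟩
  have hne : Y.Nonempty := by
    rw [← card_pos]; omega
  obtain ⟨y, hy⟩ := hne
  have h1 := hw.card (θ y)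
  have h2 : (w (θ y)).2.ncard ≤ (⋃ y ∈ Y, (w (θ y)).2).ncard :=
    Set.ncard_le_ncard (Set.subset_biUnion_of_mem (u := fun y => (w (θ y)).2) (mem_coe.2 hy))
      (Set.toFinite _)
  omega

/-- ROW A: one level down. -/
theorem spread_step13 {q s a : ℕ} {K α Θ : Type} [Finite K] [Finite α] [Nonempty α] [Fintype Θ]
    [Nonempty Θ] {S0 : Set K} (hs : 1 ≤ s) {w : Θ → K × Set α} (hw : Spread S0 s a w)
    (w' : (Fin q → Θ) → K × Set (α × Fin q)) (hbad : ∀ θ, ¬ Good (fun y => w (θ y)) (w' θ)) :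
    Spread S0 s (f a) w' := by
  classical
  refine ⟨?_, ?_, ?_, ?_⟩
  · unfold f
    exact Nat.mul_pos hw.pos (Nat.succ_pos a)
  · intro θ
    obtain ⟨Y, hY, hY2⟩ := violator13 hw (hbad θ)
    have hne : Y.Nonempty := by
      rw [← card_pos]; omega
    obtain ⟨y, hy⟩ := hne
    rw [← (hY2 y hy).1]
    exact hw.mem _
  · intro θ
    obtain ⟨Y, hY, hY2⟩ := violator13 hw (hbad θ)
    calc f a ≤ Y.card * a := by
          unfold f
          rw [Nat.mul_comm]
          exact Nat.mul_le_mul_right a hY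
      _ = ∑ _y ∈ Y, a := by rw [sum_const, smul_eq_mul]
      _ ≤ ∑ y ∈ Y, (sec13 (w' θ).2 y).ncard := by
          apply sum_le_sum
          intro y hy
          exact (hw.card _).trans (Set.ncard_le_ncard (hY2 y hy).2 (Set.toFinite _))
      _ ≤ ∑ y, (sec13 (w' θ).2 y).ncard :=
          sum_le_sum_of_subset_of_nonneg (subset_univ _) (fun _ _ _ => Nat.zero_le _)
      _ = (w' θ).2.ncard := sum_sec13 _
  · intro κ U
    have hp0 : ∀ y : Fin q, (0 : ℝ) ≤ (((sec13 U y).ncard : ℝ) / s) ^ a := fun y => by positivity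
    calc dens (fun θ => (w' θ).1 = κ ∧ (w' θ).2 ⊆ U)
        ≤ dens (fun θ : Fin q → Θ => ∃ e : {e : Fin (a + 1) → Fin q // Function.Injective e},
            ∀ i, (w (θ (e.1 i))).1 = κ ∧ (w (θ (e.1 i))).2 ⊆ sec13 U (e.1 i)) := by
          apply dens_mono
          rintro θ ⟨h1, h2⟩
          obtain ⟨Y, hY, hY2⟩ := violator13 hw (hbad θ)
          refine ⟨⟨Y.orderEmbOfCardLe hY, (Y.orderEmbOfCardLe hY).injective⟩, fun i => ?_⟩
          have h3 := hY2 _ (Y.orderEmbOfCardLe_mem hY i)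
          exact ⟨h3.1.trans h1, fun x hx => h2 (h3.2 hx)⟩
      _ ≤ ∑ e : {e : Fin (a + 1) → Fin q // Function.Injective e},
            dens (fun θ : Fin q → Θ =>
              ∀ i, (w (θ (e.1 i))).1 = κ ∧ (w (θ (e.1 i))).2 ⊆ sec13 U (e.1 i)) :=
          dens_exists_le _
      _ ≤ ∑ e : {e : Fin (a + 1) → Fin q // Function.Injective e},
            ∏ i, (((sec13 U (e.1 i)).ncard : ℝ) / s) ^ a := by
          apply sum_le_sum
          intro e _
          rw [dens_pi e.1 e.2 (fun i t => (w t).1 = κ ∧ (w t).2 ⊆ sec13 U (e.1 i))]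
          exact prod_le_prod (fun i _ => dens_nonneg _) (fun i _ => hw.dens_le κ _)
      _ = ∑ e ∈ univ.filter (fun e : Fin (a + 1) → Fin q => Function.Injective e),
            ∏ i, (((sec13 U (e i)).ncard : ℝ) / s) ^ a := by
          rw [← sum_subtype (univ.filter (fun e : Fin (a + 1) → Fin q => Function.Injective e))
            (fun e => by simp) (fun e => ∏ i, (((sec13 U (e i)).ncard : ℝ) / s) ^ a)]
      _ ≤ ∑ e : Fin (a + 1) → Fin q, ∏ i, (((sec13 U (e i)).ncard : ℝ) / s) ^ a :=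
          sum_le_sum_of_subset_of_nonneg (filter_subset _ _)
            (fun e _ _ => prod_nonneg (fun i _ => hp0 _))
      _ = (∑ y, (((sec13 U y).ncard : ℝ) / s) ^ a) ^ (a + 1) := by
          rw [Finset.sum_pow', Fintype.piFinset_univ]
      _ ≤ ((∑ y, ((sec13 U y).ncard : ℝ) / s) ^ a) ^ (a + 1) := by
          apply pow_le_pow_left₀ (sum_nonneg (fun y _ => hp0 y))
          exact sum_pow_le univ _ (fun y => by positivity) (by have := hw.pos; omega)
      _ = ((U.ncard : ℝ) / s) ^ f a := by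
          rw [← sum_div, ← sum_sec13 U, ← pow_mul]
          unfold f
          push_cast
          rfl

end Pool.Agent.Lib.MP_994fee_co.Tri
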